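import Pool.Agent.Helper37.SN.Stmts

set_option autoImplicit false

namespace Pool.Agent.Helper37.SN

open MeasureTheory Finset
open scoped ENNReal Classical

namespace FCaux

/-- the exponential -/
theorem exp_iter (c : ℂ) (j : ℕ) :
    iteratedDeriv j (fun y : ℝ => Complex.exp (c * (y : ℂ))) =
      fun y : ℝ => c ^ j * Complex.exp (c * (y : ℂ)) := by
  induction j with
  | zero => funext y; simp
  | succ j ih =>
    rw [iteratedDeriv_succ, ih]
    funext y
    have h1 : HasDerivAt (fun y : ℝ => c * (y : ℂ)) c y := by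
      have h := (Complex.ofRealCLM.hasDerivAt (x := y)).const_mul c
      simpa using h
    have h2 := (h1.cexp).const_mul (c ^ j)
    rw [h2.deriv]
    ring

theorem exp_contDiff (c : ℂ) (n : WithTop ℕ∞) :
    ContDiff ℝ n (fun y : ℝ => Complex.exp (c * (y : ℂ))) :=
  (contDiff_const.mul Complex.ofRealCLM.contDiff).cexp

theorem one_sub_bound (c : ℂ) (hc : c.re = 0) (y : ℝ) :
    ‖1 - Complex.exp (c * (y : ℂ))‖ ≤ ‖c‖ * |y| := by
  have hc' : c = (c.im : ℂ) * Complex.I := by
    apply Complex.ext <;> simp [hc]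
  have h := Real.norm_exp_I_mul_ofReal_sub_one_le (x := c.im * y)
  have e1 : c * (y : ℂ) = Complex.I * ((c.im * y : ℝ) : ℂ) := by
    conv_lhs => rw [hc']
    push_cast
    ring
  rw [e1, norm_sub_rev]
  refine h.trans ?_
  rw [norm_mul, Real.norm_eq_abs, Real.norm_eq_abs]
  refine mul_le_mul_of_nonneg_right ?_ (abs_nonneg _)
  exact Complex.abs_im_le_norm c

theorem ofReal_iter {k : ℕ} {W : ℝ → ℝ} (hW : ContDiff ℝ k W) {i : ℕ} (hi : i ≤ k) (y : ℝ) :
    ‖iteratedDeriv i (fun y : ℝ => ((W y : ℝ) : ℂ)) y‖ = |iteratedDeriv i W y| := by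
  rw [← norm_iteratedFDeriv_eq_norm_iteratedDeriv]
  have h := LinearIsometry.norm_iteratedFDeriv_comp_left (𝕜 := ℝ) (i := i) (n := (k : WithTop ℕ∞))
    (f := W) (x := y) Complex.ofRealLI hW.contDiffAt (by exact_mod_cast hi)
  have e : (fun y : ℝ => ((W y : ℝ) : ℂ)) = Complex.ofRealLI ∘ W := rfl
  rw [e, h, norm_iteratedFDeriv_eq_norm_iteratedDeriv, Real.norm_eq_abs]

theorem integrable_aux {W : ℝ → ℝ} (hW : Continuous W) (h0 : ∀ y, 2 ≤ |y| → W y = 0) (ξ : ℝ) :
    Integrable (fun y : ℝ => Complex.exp (-(((2 * Real.pi * ξ * y : ℝ) : ℂ) * Complex.I)) *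
      ((W y : ℝ) : ℂ)) := by
  apply Continuous.integrable_of_hasCompactSupport
  · fun_prop
  · apply HasCompactSupport.of_support_subset_isCompact (isCompact_Icc (a := (-2 : ℝ)) (b := 2))
    intro y hy
    by_contra hc
    apply hy
    have : 2 ≤ |y| := by
      rw [Set.mem_Icc, not_and_or, not_le, not_le] at hc
      rcases hc with hc | hc
      · rw [abs_of_neg (by linarith)]; linarith
      · rw [abs_of_pos (by linarith)]; linarith
    simp [h0 y this]

end FCaux

open FCaux in
theorem st_FC (h1 : ST_FCD) : ST_FC := by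
  intro k
  obtain ⟨C0, hC0, H⟩ := h1 k
  have hpi : 1 ≤ 4 * Real.pi := by linarith [Real.pi_gt_three]
  have hM1 : (1 : ℝ) ≤ (4 * Real.pi) ^ (k + 1) := one_le_pow₀ hpi
  have h2k : (1 : ℝ) ≤ 2 ^ k := one_le_pow₀ (by norm_num)
  refine ⟨C0 * (2 ^ k * (4 * Real.pi) ^ (k + 1)), by positivity, ?_⟩
  intro a W hA
  obtain ⟨hW, hW0, hWb⟩ := hA
  have ha : 0 ≤ a := (abs_nonneg _).trans (hWb 0 (Nat.zero_le k) 0)
  have hWc : ContDiff ℝ k (fun y : ℝ => ((W y : ℝ) : ℂ)) := Complex.ofRealCLM.contDiff.comp hW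
  have hWc0 : ∀ y, 2 ≤ |y| → ((W y : ℝ) : ℂ) = 0 := by
    intro y hy
    rw [hW0 y hy, Complex.ofReal_zero]
  have hWcb : ∀ i ≤ k, ∀ y, ‖iteratedDeriv i (fun y : ℝ => ((W y : ℝ) : ℂ)) y‖ ≤ a := by
    intro i hi y
    rw [ofReal_iter hW hi]
    exact hWb i hi y
  constructor
  · intro ξ
    refine (H a _ hWc hWc0 hWcb ξ).trans ?_
    refine div_le_div_of_nonneg_right ?_ (by positivity)
    refine mul_le_mul_of_nonneg_right ?_ ha
    refine le_mul_of_one_le_right hC0.le ?_
    exact one_le_mul_of_one_le_of_one_le h2k hM1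
  · intro ξ η hd
    -- the increment as a transform
    let c : ℂ := -((2 * Real.pi * (η - ξ) : ℝ) : ℂ) * Complex.I
    have hcre : c.re = 0 := by simp [c]
    have hcn : ‖c‖ = 2 * Real.pi * |ξ - η| := by
      rw [norm_mul, norm_neg, Complex.norm_I, mul_one, Complex.norm_real, Real.norm_eq_abs,
        abs_mul, abs_of_pos (by positivity : 0 < 2 * Real.pi), abs_sub_comm]
    let f : ℝ → ℂ := fun y => 1 - Complex.exp (c * (y : ℂ))
    let V : ℝ → ℂ := fun y => f y * ((W y : ℝ) : ℂ)
    have hf : ContDiff ℝ k f := contDiff_const.sub (exp_contDiff c k)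
    have hV : ContDiff ℝ k V := hf.mul hWc
    have hV0 : ∀ y, 2 ≤ |y| → V y = 0 := by
      intro y hy
      change f y * ((W y : ℝ) : ℂ) = 0
      rw [hWc0 y hy, mul_zero]
    set D : ℝ := |ξ - η| with hD
    have hD0 : 0 ≤ D := abs_nonneg _
    have hfb : ∀ i ≤ k, ∀ y, |y| ≤ 2 → ‖iteratedFDeriv ℝ i f y‖ ≤ (4 * Real.pi) ^ (k + 1) * D := by
      intro i hi y hy
      rw [norm_iteratedFDeriv_eq_norm_iteratedDeriv]
      rcases Nat.eq_zero_or_pos i with h0 | h0
      · subst h0
        rw [iteratedDeriv_zero]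
        refine (one_sub_bound c hcre y).trans ?_
        rw [hcn]
        have e1 : 2 * Real.pi * D * |y| ≤ 4 * Real.pi * D := by
          have : 2 * Real.pi * D * |y| ≤ 2 * Real.pi * D * 2 :=
            mul_le_mul_of_nonneg_left hy (by positivity)
          linarith
        refine e1.trans (mul_le_mul_of_nonneg_right ?_ hD0)
        calc 4 * Real.pi = (4 * Real.pi) ^ 1 := (pow_one _).symm
          _ ≤ (4 * Real.pi) ^ (k + 1) := pow_le_pow_right₀ hpi (by omega)
      · have e1 : iteratedDeriv i f y = -(c ^ i * Complex.exp (c * (y : ℂ))) := by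
          obtain ⟨j, rfl⟩ : ∃ j, i = j + 1 := ⟨i - 1, by omega⟩
          have e2 : deriv f = fun y => -deriv (fun y : ℝ => Complex.exp (c * (y : ℂ))) y := by
            funext z
            have h3 : DifferentiableAt ℝ (fun y : ℝ => Complex.exp (c * (y : ℂ))) z :=
              ((exp_contDiff c 1).differentiable one_ne_zero).differentiableAt
            exact ((hasDerivAt_const z (1 : ℂ)).sub h3.hasDerivAt).deriv.trans (zero_sub _)
          rw [iteratedDeriv_succ', e2]
          have e3 : iteratedDeriv j (fun y => -deriv (fun y : ℝ => Complex.exp (c * (y : ℂ))) y) y =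
              -iteratedDeriv j (deriv (fun y : ℝ => Complex.exp (c * (y : ℂ)))) y := by
            exact iteratedDeriv_fun_neg j _ y
          rw [e3, ← iteratedDeriv_succ', exp_iter]
        have hexp : ‖Complex.exp (c * (y : ℂ))‖ = 1 := by
          rw [Complex.norm_exp]
          simp [hcre]
        rw [e1, norm_neg, norm_mul, norm_pow, hexp, mul_one, hcn]
        rw [mul_pow]
        have e4 : D ^ i ≤ D := by
          calc D ^ i ≤ D ^ 1 := pow_le_pow_of_le_one hD0 hd h0
            _ = D := pow_one _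
        refine mul_le_mul ?_ e4 (by positivity) (by positivity)
        calc (2 * Real.pi) ^ i ≤ (4 * Real.pi) ^ i := by
              refine pow_le_pow_left₀ (by positivity) ?_ i
              linarith [Real.pi_pos]
          _ ≤ (4 * Real.pi) ^ (k + 1) := pow_le_pow_right₀ hpi (by omega)
    have hVb : ∀ i ≤ k, ∀ y, ‖iteratedDeriv i V y‖ ≤
        2 ^ k * (4 * Real.pi) ^ (k + 1) * D * a := by
      intro i hi y
      rcases le_or_gt |y| 2 with hy | hy
      · rw [← norm_iteratedFDeriv_eq_norm_iteratedDeriv]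
        refine (norm_iteratedFDeriv_mul_le hf hWc y (by exact_mod_cast hi)).trans ?_
        have e1 : ∀ j ∈ Finset.range (i + 1), (i.choose j : ℝ) * ‖iteratedFDeriv ℝ j f y‖ *
            ‖iteratedFDeriv ℝ (i - j) (fun y : ℝ => ((W y : ℝ) : ℂ)) y‖ ≤
            (i.choose j : ℝ) * ((4 * Real.pi) ^ (k + 1) * D * a) := by
          intro j hj
          have hj' : j ≤ i := by
            have := Finset.mem_range.1 hj
            omega
          rw [mul_assoc]
          refine mul_le_mul_of_nonneg_left ?_ (by positivity)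
          refine mul_le_mul (hfb j (by omega) y hy) ?_ (norm_nonneg _) (by positivity)
          rw [norm_iteratedFDeriv_eq_norm_iteratedDeriv]
          exact hWcb (i - j) (by omega) y
        refine (Finset.sum_le_sum e1).trans ?_
        rw [← Finset.sum_mul]
        have e2 : ∑ j ∈ Finset.range (i + 1), (i.choose j : ℝ) = 2 ^ i := by
          have := Nat.sum_range_choose i
          exact_mod_cast this
        rw [e2]
        have e3 : (2 : ℝ) ^ i ≤ 2 ^ k := pow_le_pow_right₀ (by norm_num) hi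
        have e4 : 0 ≤ (4 * Real.pi) ^ (k + 1) * D * a := by positivity
        calc (2 : ℝ) ^ i * ((4 * Real.pi) ^ (k + 1) * D * a) ≤
              2 ^ k * ((4 * Real.pi) ^ (k + 1) * D * a) := mul_le_mul_of_nonneg_right e3 e4
          _ = 2 ^ k * (4 * Real.pi) ^ (k + 1) * D * a := by ring
      · have e1 : V =ᶠ[nhds y] fun _ => 0 := by
          have : ∀ᶠ z in nhds y, 2 < |z| := (continuous_abs.tendsto y).eventually (lt_mem_nhds hy)
          filter_upwards [this] with z hz
          exact hV0 z hz.le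
        rw [e1.iteratedDeriv_eq]
        have e2 : iteratedDeriv i (fun _ : ℝ => (0 : ℂ)) y = 0 := by
          rw [iteratedDeriv_const]
          split_ifs <;> rfl
        rw [e2, norm_zero]
        positivity
    have key := H _ V hV hV0 hVb ξ
    have e1 : FT W ξ - FT W η = ∫ y : ℝ,
        Complex.exp (-(((2 * Real.pi * ξ * y : ℝ) : ℂ) * Complex.I)) * V y := by
      rw [FT, FT, ← integral_sub (integrable_aux hW.continuous hW0 ξ)
        (integrable_aux hW.continuous hW0 η)]
      refine integral_congr_ae (Filter.Eventually.of_forall fun y => ?_)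
      change Complex.exp (-(((2 * Real.pi * ξ * y : ℝ) : ℂ) * Complex.I)) * ((W y : ℝ) : ℂ) -
        Complex.exp (-(((2 * Real.pi * η * y : ℝ) : ℂ) * Complex.I)) * ((W y : ℝ) : ℂ) =
        Complex.exp (-(((2 * Real.pi * ξ * y : ℝ) : ℂ) * Complex.I)) *
          ((1 - Complex.exp (c * (y : ℂ))) * ((W y : ℝ) : ℂ))
      have e2 : Complex.exp (-(((2 * Real.pi * η * y : ℝ) : ℂ) * Complex.I)) =
          Complex.exp (-(((2 * Real.pi * ξ * y : ℝ) : ℂ) * Complex.I)) *
            Complex.exp (c * (y : ℂ)) := by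
        rw [← Complex.exp_add]
        congr 1
        simp only [c]
        push_cast
        ring
      rw [e2]
      ring
    rw [e1]
    refine key.trans (le_of_eq ?_)
    ring

end Pool.Agent.Helper37.SN
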